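import Pool.Agent.H24.SCG.Base

/-!
# Project SCG, module C3D: case 3, both `b` and `d` outer
-/

set_option autoImplicit false

namespace Pool.Agent.H40.SCG

open Matrix Pool.SCG

namespace C3D

variable {F : Type} [Field F]

theorem diag_mulVec (x y z : F) (v : Fin 3 → F) :
    dg x y z *ᵥ v = ![x * v 0, y * v 1, z * v 2] := by
  ext i
  fin_cases i <;> simp [dg, Matrix.mulVec, dotProduct, Fin.sum_univ_three]

/-- the product of two commuting outer involutions is a homology -/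
theorem hom_of (hINV : INVStmt) (h2 : (2 : F) ≠ 0) {x y : Cor F} (hx : x.s = true)
    (hy : y.s = true) (xx : x * x = 1) (yy : y * y = 1) (xy : x * y = y * x) (hne : x ≠ y) :
    ∃ v φ : Fin 3 → F, IsHom (x * y) v φ := by
  have h1 : x * y ≠ 1 := by
    intro h
    apply hne
    calc x = x * (y * y) := by rw [yy, mul_one]
      _ = (x * y) * y := by rw [mul_assoc]
      _ = y := by rw [h, one_mul]
  have h3 : (x * y) * (x * y) = 1 := by
    calc (x * y) * (x * y) = (x * y) * (y * x) := by rw [xy]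
      _ = x * (y * y) * x := by group
      _ = 1 := by rw [yy, mul_one, xx]
  rcases hINV F h2 (x * y) h1 h3 with h4 | h4
  · exact h4
  · exfalso
    have h5 := h4.1
    rw [Cor.mul_s, hx, hy] at h5
    simp at h5

end C3D

open C3D in
/-- C3D -/
theorem c3d_thm (hINV : INVStmt) (hHCO : HCOStmt) : C3DStmt := by
  intro F _ _ hF a b c d e b1 b2 b3 hS hN hb hd
  have h2 : (2 : F) ≠ 0 := hF.1
  have hdet := hN.ha.det
  rw [dg_det] at hdet
  have hb1 : b1 ≠ 0 := by rintro rfl; simp at hdet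
  have hb2 : b2 ≠ 0 := by rintro rfl; simp at hdet
  have hb3 : b3 ≠ 0 := by rintro rfl; simp at hdet
  have has : a.s = true := hN.ha.1
  have hes : e.s = true := hN.he.1
  have hbe : b ≠ e := by
    rintro rfl
    exact hS.ab hS.ae
  have hda : d ≠ a := by
    rintro rfl
    exact hS.de hS.ae
  obtain ⟨v, φ, hk⟩ := hom_of hINV h2 hes hb hS.ie.2 hS.ib.2 hS.be.symm hbe.symm
  obtain ⟨w, ψ, hh⟩ := hom_of hINV h2 has hd hS.ia.2 hS.id.2 hS.ad hda.symm
  have hkb : b = (e * b) * e := by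
    rw [← hS.be, mul_assoc, hS.ie.2, mul_one]
  have hkb' : b = e * (e * b) := by
    rw [← mul_assoc, hS.ie.2, one_mul]
  have hhd : d = a * (a * d) := by
    rw [← mul_assoc, hS.ia.2, one_mul]
  have hhd' : d = (a * d) * a := by
    rw [hS.ad, mul_assoc, hS.ia.2, mul_one]
  have hke : (e * b) * e = e * (e * b) := by rw [← hkb, ← hkb']
  have hha : (a * d) * a = a * (a * d) := by rw [← hhd, ← hhd']
  obtain ⟨⟨hQ, hφ⟩, -⟩ : (v ⬝ᵥ (dg (-b1) (-b2) b3 *ᵥ v) ≠ 0 ∧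
      φ = (v ⬝ᵥ (dg (-b1) (-b2) b3 *ᵥ v))⁻¹ • (dg (-b1) (-b2) b3 *ᵥ v)) ∧ True :=
    ⟨(hHCO F h2 (e * b) e v φ _ hk hN.he (dg_transpose _ _ _)).1 hke, trivial⟩
  obtain ⟨⟨hq, hψ⟩, -⟩ : (w ⬝ᵥ (dg b1 b2 b3 *ᵥ w) ≠ 0 ∧
      ψ = (w ⬝ᵥ (dg b1 b2 b3 *ᵥ w))⁻¹ • (dg b1 b2 b3 *ᵥ w)) ∧ True :=
    ⟨(hHCO F h2 (a * d) a w ψ _ hh hN.ha (dg_transpose _ _ _)).1 hha, trivial⟩
  have ka := (hHCO F h2 (e * b) a v φ _ hk hN.ha (dg_transpose _ _ _)).2
  have he := (hHCO F h2 (a * d) e w ψ _ hh hN.he (dg_transpose _ _ _)).2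
  -- nonvanishing
  have nka : (e * b) * a ≠ a * (e * b) := by
    intro h
    apply hS.ab
    calc a * b = a * (e * (e * b)) := by rw [← hkb']
      _ = e * (a * (e * b)) := by rw [← mul_assoc, hS.ae, mul_assoc]
      _ = e * ((e * b) * a) := by rw [h]
      _ = (e * (e * b)) * a := (mul_assoc _ _ _).symm
      _ = b * a := by rw [← hkb']
  have nhe : (a * d) * e ≠ e * (a * d) := by
    intro h
    apply hS.de
    calc d * e = (a * (a * d)) * e := by rw [← hhd]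
      _ = a * ((a * d) * e) := by rw [mul_assoc]
      _ = a * (e * (a * d)) := by rw [h]
      _ = e * (a * (a * d)) := by rw [← mul_assoc, hS.ae, mul_assoc]
      _ = e * d := by rw [← hhd]
  set Q := v ⬝ᵥ (dg (-b1) (-b2) b3 *ᵥ v) with hQdef
  set q := w ⬝ᵥ (dg b1 b2 b3 *ᵥ w) with hqdef
  rw [diag_mulVec] at hφ hψ ka he
  have v3 : v 2 ≠ 0 := by
    intro h
    apply nka
    apply ka (-Q)
    rw [hφ, h, smul_smul]
    have : -Q * Q⁻¹ = -1 := by field_simp
    rw [this]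
    ext i
    fin_cases i <;> simp
  have v12 : ¬ (v 0 = 0 ∧ v 1 = 0) := by
    rintro ⟨h, h'⟩
    apply nka
    apply ka Q
    rw [hφ, h, h', smul_smul, mul_inv_cancel₀ hQ, one_smul]
    ext i
    fin_cases i <;> simp
  have w3 : w 2 ≠ 0 := by
    intro h
    apply nhe
    apply he (-q)
    rw [hψ, h, smul_smul]
    have : -q * q⁻¹ = -1 := by field_simp
    rw [this]
    ext i
    fin_cases i <;> simp
  have w12 : ¬ (w 0 = 0 ∧ w 1 = 0) := by
    rintro ⟨h, h'⟩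
    apply nhe
    apply he q
    rw [hψ, h, h', smul_smul, mul_inv_cancel₀ hq, one_smul]
    ext i
    fin_cases i <;> simp
  -- the relation `k g h = h g k`
  have hea : Is (e * a) false (dg (-1) (-1) 1) := by
    have h1 : dg (-b1) (-b2) b3 * dg (-b1)⁻¹ (-b2)⁻¹ b3⁻¹ = 1 := by
      rw [dg_mul, mul_inv_cancel₀ (neg_ne_zero.2 hb1), mul_inv_cancel₀ (neg_ne_zero.2 hb2),
        mul_inv_cancel₀ hb3, dg_one]
    have h3 := hN.he.mul_outer' hN.ha h1
    rw [dg_transpose, dg_mul] at h3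
    have e1 : (-b1)⁻¹ * b1 = -1 := by field_simp
    have e2 : (-b2)⁻¹ * b2 = -1 := by field_simp
    have e3 : b3⁻¹ * b3 = 1 := by field_simp
    rw [e1, e2, e3] at h3
    exact h3
  have hK : Is (e * b) false ((2 : F) • vecMulVec v φ - 1) := ⟨hk.1, hk.2.2⟩
  have hH : Is (a * d) false ((2 : F) • vecMulVec w ψ - 1) := ⟨hh.1, hh.2.2⟩
  have hrel : (e * b) * (e * a) * (a * d) = (a * d) * (e * a) * (e * b) := by
    calc (e * b) * (e * a) * (a * d) = ((e * b) * e) * (a * (a * d)) := by group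
      _ = b * d := by rw [← hkb, ← hhd]
      _ = d * b := hS.bd
      _ = ((a * d) * a) * (e * (e * b)) := by rw [← hhd', ← hkb']
      _ = (a * d) * (a * e) * (e * b) := by group
      _ = _ := by rw [hS.ae]
  have hmat := ((hK.mul_inner hea).mul_inner hH).uniq (hrel ▸ (hH.mul_inner hea).mul_inner hK)
  have hmat := hmat.2
  have p0 : φ 0 = Q⁻¹ * (-b1 * v 0) := by rw [hφ]; simp
  have p1 : φ 1 = Q⁻¹ * (-b2 * v 1) := by rw [hφ]; simp
  have p2 : φ 2 = Q⁻¹ * (b3 * v 2) := by rw [hφ]; simp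
  have r0 : ψ 0 = q⁻¹ * (b1 * w 0) := by rw [hψ]; simp
  have r1 : ψ 1 = q⁻¹ * (b2 * w 1) := by rw [hψ]; simp
  have r2 : ψ 2 = q⁻¹ * (b3 * w 2) := by rw [hψ]; simp
  have ent : ∀ i j : Fin 3, _ := fun i j => congrFun (congrFun hmat i) j
  have e22 := ent 2 2
  have e00 := ent 0 0
  have e11 := ent 1 1
  have e01 := ent 0 1
  simp only [Matrix.mul_apply, Fin.sum_univ_three, Matrix.sub_apply, Matrix.smul_apply,
    vecMulVec_apply, smul_eq_mul, dg, Matrix.of_apply, Matrix.cons_val', Matrix.cons_val_zero,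
    Matrix.cons_val_one, Matrix.cons_val, Matrix.one_apply, p0, p1, p2, r0, r1, r2] at e22 e00 e11 e01
  have f02 : ¬ ((0 : Fin 3) = 2) := by decide
  have f20 : ¬ ((2 : Fin 3) = 0) := by decide
  have f12 : ¬ ((1 : Fin 3) = 2) := by decide
  have f21 : ¬ ((2 : Fin 3) = 1) := by decide
  have f01 : ¬ ((0 : Fin 3) = 1) := by decide
  have f10 : ¬ ((1 : Fin 3) = 0) := by decide
  simp only [if_neg f02, if_neg f20, if_neg f12, if_neg f21, if_neg f01, if_neg f10,
    if_true] at e22 e00 e11 e01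
  have hQi : Q⁻¹ ≠ 0 := inv_ne_zero hQ
  have hqi : q⁻¹ ≠ 0 := inv_ne_zero hq
  generalize Q⁻¹ = Qi at *
  generalize q⁻¹ = qi at *
  have s1 : (2 * 2 * 2 * Qi * qi * b3 * v 2 * w 2) * (b1 * v 0 * w 0 + b2 * v 1 * w 1) = 0 := by
    linear_combination e22
  have s1' : b1 * v 0 * w 0 + b2 * v 1 * w 1 = 0 := by
    rcases mul_eq_zero.1 s1 with h | h
    · exact absurd h (by simp [h2, hQi, hqi, hb3, v3, w3])
    · exact h
  have s2 : (2 * 2 * 2 * Qi * qi * b1 * b3 * v 2 * w 2) * (v 0 * w 0) = 0 := by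
    linear_combination e00
  have s3 : (2 * 2 * 2 * Qi * qi * b2 * b3 * v 2 * w 2) * (v 1 * w 1) = 0 := by
    linear_combination e11
  have s4 : (2 * 2 * Qi * qi * b2 * b3 * v 2 * w 2) * (v 0 * w 1 + w 0 * v 1) = 0 := by
    linear_combination e01 - (2 * 2 * Qi * qi * b2 * (v 0 * w 1 - w 0 * v 1)) * s1'
  have n2 : v 0 * w 0 = 0 := by
    rcases mul_eq_zero.1 s2 with h | h
    · exact absurd h (by simp [h2, hQi, hqi, hb3, hb1, v3, w3])
    · exact h
  have n3 : v 1 * w 1 = 0 := by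
    rcases mul_eq_zero.1 s3 with h | h
    · exact absurd h (by simp [h2, hQi, hqi, hb3, hb2, v3, w3])
    · exact h
  have n4 : v 0 * w 1 + w 0 * v 1 = 0 := by
    rcases mul_eq_zero.1 s4 with h | h
    · exact absurd h (by simp [h2, hQi, hqi, hb3, hb2, v3, w3])
    · exact h
  by_cases z : v 0 = 0
  · have z1 : v 1 ≠ 0 := fun h => v12 ⟨z, h⟩
    have z2 : w 1 = 0 := (mul_eq_zero.1 n3).resolve_left z1
    rw [z, zero_mul, zero_add] at n4
    exact w12 ⟨(mul_eq_zero.1 n4).resolve_right z1, z2⟩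
  · have z2 : w 0 = 0 := (mul_eq_zero.1 n2).resolve_left z
    rw [z2, zero_mul, add_zero] at n4
    exact w12 ⟨z2, (mul_eq_zero.1 n4).resolve_left z⟩

end Pool.Agent.H40.SCG
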