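import Pool.Agent.H24.SCG.Base

/-!
# Project SCG, module NQ: the normaliser form
-/

set_option autoImplicit false

namespace Pool.Agent.H40.SCG

open Matrix Pool.SCG

namespace NQ

variable {L : Type} [Field L]

/-- The determinant of two vectors. -/
def cr (v w : Fin 2 → L) : L := v 0 * w 1 - v 1 * w 0

theorem par {v w : Fin 2 → L} (hv : v ≠ 0) (h : cr v w = 0) : ∃ c : L, w = c • v := by
  unfold cr at h
  by_cases h0 : v 0 = 0
  · have h1 : v 1 ≠ 0 := by
      intro h1
      apply hv
      ext i
      fin_cases i <;> simp [h0, h1]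
    refine ⟨w 1 / v 1, ?_⟩
    have h2 : w 0 = 0 := by
      rw [h0, zero_mul, zero_sub, neg_eq_zero] at h
      exact (mul_eq_zero.1 h).resolve_left h1
    ext i
    fin_cases i
    · simp [h0, h2]
    · simp [h1]
  · refine ⟨w 0 / v 0, ?_⟩
    ext i
    fin_cases i
    · simp [h0]
    · simp only [Fin.mk_one, Fin.isValue, Pi.smul_apply, smul_eq_mul]
      field_simp
      linear_combination h

/-- two independent vectors span -/
theorem span2 {v w : Fin 2 → L} (h : cr v w ≠ 0) (x : Fin 2 → L) :
    ∃ s t : L, x = s • v + t • w := by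
  unfold cr at h
  refine ⟨(x 0 * w 1 - x 1 * w 0) / (v 0 * w 1 - v 1 * w 0),
    (v 0 * x 1 - v 1 * x 0) / (v 0 * w 1 - v 1 * w 0), ?_⟩
  ext i
  fin_cases i
  · simp only [Fin.zero_eta, Fin.isValue, Pi.add_apply, Pi.smul_apply, smul_eq_mul]
    rw [div_mul_eq_mul_div, div_mul_eq_mul_div, ← add_div, eq_div_iff h]
    ring
  · simp only [Fin.mk_one, Fin.isValue, Pi.add_apply, Pi.smul_apply, smul_eq_mul]
    rw [div_mul_eq_mul_div, div_mul_eq_mul_div, ← add_div, eq_div_iff h]
    ring

/-- a matrix which is a multiple of the identity on two independent vectors is scalar -/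
theorem scalar_of {M : Matrix (Fin 2) (Fin 2) L} {v w : Fin 2 → L} {c : L} (h : cr v w ≠ 0)
    (hv : M *ᵥ v = c • v) (hw : M *ᵥ w = c • w) : M = c • (1 : Matrix (Fin 2) (Fin 2) L) := by
  have h1 : ∀ x : Fin 2 → L, M *ᵥ x = c • x := by
    intro x
    obtain ⟨s, t, rfl⟩ := span2 h x
    rw [mulVec_add, mulVec_smul, mulVec_smul, hv, hw, smul_add, smul_comm s c v, smul_comm t c w]
  ext i j
  have h2 := congrFun (h1 (Pi.single j 1)) i
  rw [mulVec_single_one] at h2
  simp only [Matrix.col_apply, Pi.smul_apply, smul_eq_mul] at h2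
  rw [h2, Matrix.smul_apply, Matrix.one_apply, smul_eq_mul, Pi.single_apply]

end NQ

open NQ in
/-- NQ -/
theorem nq_thm (hODC : ODCStmt) : NQStmt := by
  classical
  intro F _ _ h2 K A B hK hne hA hB nA nB sA sB
  set ψ := algebraMap F (AlgebraicClosure F) with hψ
  have hinj : Function.Injective ψ := ψ.injective
  obtain ⟨v, hv, hKv⟩ := hODC F h2 K hK
  -- a non scalar element of `K`
  obtain ⟨k1, hk1, hk1ne⟩ : ∃ k : SpecialLinearGroup (Fin 2) F, k ∈ K ∧ k ≠ 1 := by
    by_contra hcon
    push Not at hcon
    apply hne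
    rw [Subgroup.eq_bot_iff_forall]
    exact hcon
  have hns : ∀ c : AlgebraicClosure F, (k1 : Matrix (Fin 2) (Fin 2) F).map ψ ≠
      c • (1 : Matrix (Fin 2) (Fin 2) (AlgebraicClosure F)) := by
    intro c hc
    have e00 := congrFun (congrFun hc 0) 0
    have e11 := congrFun (congrFun hc 1) 1
    have e01 := congrFun (congrFun hc 0) 1
    have e10 := congrFun (congrFun hc 1) 0
    simp only [Matrix.map_apply, Matrix.smul_apply, Matrix.one_apply_eq, smul_eq_mul, mul_one]
      at e00 e11
    simp only [Matrix.map_apply, Matrix.smul_apply, smul_eq_mul,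
      Matrix.one_apply_ne (show (0 : Fin 2) ≠ 1 by decide), mul_zero] at e01
    simp only [Matrix.map_apply, Matrix.smul_apply, smul_eq_mul,
      Matrix.one_apply_ne (show (1 : Fin 2) ≠ 0 by decide), mul_zero] at e10
    have f01 : k1 0 1 = 0 := (map_eq_zero ψ).1 e01
    have f10 : k1 1 0 = 0 := (map_eq_zero ψ).1 e10
    have f : k1 0 0 = k1 1 1 := hinj (e00.trans e11.symm)
    have hdet := k1.2
    rw [det_fin_two] at hdet
    have hdet' : k1 0 0 * k1 1 1 - k1 0 1 * k1 1 0 = 1 := hdet
    rw [f01, zero_mul, sub_zero, ← f] at hdet'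
    have h3 : (k1 0 0 - 1) * (k1 0 0 + 1) = 0 := by linear_combination hdet'
    rcases mul_eq_zero.1 h3 with h4 | h4
    · apply hk1ne
      have h5 : k1 0 0 = 1 := by linear_combination h4
      ext i j
      fin_cases i <;> fin_cases j <;> simp [f01, f10, h5, ← f]
    · apply hK
      have h5 : k1 0 0 = -1 := by linear_combination h4
      have h6 : k1 = -1 := by
        ext i j
        fin_cases i <;> fin_cases j <;> simp [f01, f10, h5, ← f]
      rw [← h6]
      exact hk1
  -- normalisers permute the common eigenvectors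
  have key : ∀ C : Matrix (Fin 2) (Fin 2) F, C.det ≠ 0 →
      (∀ k ∈ K, ∃ k' ∈ K, C * (k : Matrix (Fin 2) (Fin 2) F) =
        (k' : Matrix (Fin 2) (Fin 2) F) * C) →
      (∀ c : F, C * C ≠ c • (1 : Matrix (Fin 2) (Fin 2) F)) → EigB C v := by
    intro C hC nC sC
    have hCu : IsUnit C := (Matrix.isUnit_iff_isUnit_det C).2 (isUnit_iff_ne_zero.2 hC)
    have hinjC : ∀ k k' : SpecialLinearGroup (Fin 2) F,
        C * (k : Matrix (Fin 2) (Fin 2) F) = C * (k' : Matrix (Fin 2) (Fin 2) F) → k = k' := by
      intro k k' h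
      exact Subtype.ext (hCu.mul_left_cancel h)
    choose! f hfK hf using nC
    have hsurj : ∀ k ∈ K, ∃ k0 ∈ K, C * (k0 : Matrix (Fin 2) (Fin 2) F) =
        (k : Matrix (Fin 2) (Fin 2) F) * C := by
      have hF : Function.Injective (fun k : K => (⟨f k, hfK k k.2⟩ : K)) := by
        intro k k' h
        have h3 : f k = f k' := congrArg Subtype.val h
        apply Subtype.ext
        apply hinjC
        rw [hf k k.2, hf k' k'.2, h3]
      have hS := Finite.injective_iff_surjective.1 hF
      intro k hk
      obtain ⟨k0, hk0⟩ := hS ⟨k, hk⟩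
      refine ⟨k0, k0.2, ?_⟩
      have h3 : f k0 = k := congrArg Subtype.val hk0
      rw [hf k0 k0.2, h3]
    have hCmap : ∀ x : Fin 2 → AlgebraicClosure F, x ≠ 0 → (C.map ψ) *ᵥ x ≠ 0 := by
      intro x hx h
      have h3 : (C.map ψ).det ≠ 0 := by
        have h4 : (C.map ψ).det = ψ C.det := by
          rw [RingHom.map_det]
          rfl
        rw [h4]
        exact (map_ne_zero ψ).2 hC
      exact hx (Matrix.eq_zero_of_mulVec_eq_zero h3 h)
    have hmove : ∀ x : Fin 2 → AlgebraicClosure F,
        (∀ k ∈ K, EigB (k : Matrix (Fin 2) (Fin 2) F) x) →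
        (∀ k ∈ K, EigB (k : Matrix (Fin 2) (Fin 2) F) ((C.map ψ) *ᵥ x)) := by
      intro x hx k hk
      obtain ⟨k0, hk0, h3⟩ := hsurj k hk
      obtain ⟨c, hc⟩ := hx k0 hk0
      refine ⟨c, ?_⟩
      have h4 : (C.map ψ) * ((k0 : Matrix (Fin 2) (Fin 2) F).map ψ) =
          ((k : Matrix (Fin 2) (Fin 2) F).map ψ) * (C.map ψ) := by
        rw [← Matrix.map_mul, ← Matrix.map_mul, h3]
      rw [mulVec_mulVec]
      change (((k : Matrix (Fin 2) (Fin 2) F).map ψ) * (C.map ψ)) *ᵥ x = _
      rw [← h4, ← mulVec_mulVec]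
      change (C.map ψ) *ᵥ ((k0 : Matrix (Fin 2) (Fin 2) F).map (algebraMap F _) *ᵥ x) = _
      rw [hc, mulVec_smul]
    set w := (C.map ψ) *ᵥ v with hw
    have hw0 : w ≠ 0 := hCmap v hv
    by_cases hcr : cr v w = 0
    · obtain ⟨c, hc⟩ := par hv hcr
      exact ⟨c, hc⟩
    · exfalso
      have hKw := hmove v hKv
      have hKu := hmove w hKw
      set u := (C.map ψ) *ᵥ w with hu
      have hu0 : u ≠ 0 := hCmap w hw0
      obtain ⟨α, hα⟩ := hKv k1 hk1
      obtain ⟨β, hβ⟩ := hKw k1 hk1
      obtain ⟨γ, hγ⟩ := hKu k1 hk1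
      have hαβ : α ≠ β := by
        intro h
        apply hns α
        exact scalar_of hcr hα (by rw [h]; exact hβ)
      obtain ⟨s, t, hst⟩ := span2 hcr u
      have h5 : γ • u = (s * α) • v + (t * β) • w := by
        rw [← hγ]
        conv_lhs => rw [hst]
        rw [mulVec_add, mulVec_smul, mulVec_smul, hα, hβ, smul_smul, smul_smul]
      have h6 : (s * (α - γ)) • v + (t * (β - γ)) • w = 0 := by
        have h7 : γ • u = (s * γ) • v + (t * γ) • w := by
          rw [hst, smul_add, smul_smul, smul_smul, mul_comm γ s, mul_comm γ t]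
        rw [h7] at h5
        have h8 : (s * (α - γ)) • v + (t * (β - γ)) • w =
            ((s * α) • v + (t * β) • w) - ((s * γ) • v + (t * γ) • w) := by
          simp only [mul_sub, sub_smul]
          abel
        rw [h8, ← h5, sub_self]
      have g0 := congrFun h6 0
      have g1 := congrFun h6 1
      simp only [Pi.add_apply, Pi.smul_apply, smul_eq_mul, Pi.zero_apply] at g0 g1
      have hs : s * (α - γ) = 0 := by
        have h7 : (s * (α - γ)) * cr v w = 0 := by
          unfold cr
          linear_combination w 1 * g0 - w 0 * g1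
        exact (mul_eq_zero.1 h7).resolve_right hcr
      have ht : t * (β - γ) = 0 := by
        have h7 : (t * (β - γ)) * cr v w = 0 := by
          unfold cr
          linear_combination v 0 * g1 - v 1 * g0
        exact (mul_eq_zero.1 h7).resolve_right hcr
      by_cases hs0 : s = 0
      · -- `u` is a multiple of `w`, so `w` is one of `v`
        rw [hs0, zero_smul, zero_add] at hst
        have h7 : (C.map ψ) *ᵥ (w - t • v) = 0 := by
          rw [mulVec_sub, mulVec_smul, ← hu, ← hw, hst, sub_self]
        have h8 : w - t • v = 0 := by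
          by_contra hcon
          exact hCmap _ hcon h7
        apply hcr
        have h9 : w = t • v := sub_eq_zero.1 h8
        rw [h9]
        unfold cr
        simp only [Pi.smul_apply, smul_eq_mul]
        ring
      · have h7 : α = γ := sub_eq_zero.1 ((mul_eq_zero.1 hs).resolve_left hs0)
        have ht0 : t = 0 := by
          rcases mul_eq_zero.1 ht with h8 | h8
          · exact h8
          · exact absurd (h7.trans (sub_eq_zero.1 h8).symm) hαβ
        rw [ht0, zero_smul, add_zero] at hst
        -- the square is scalar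
        have h8 : ((C.map ψ) * (C.map ψ)) *ᵥ v = s • v := by
          rw [← mulVec_mulVec, ← hw, ← hu, hst]
        have h9 : ((C.map ψ) * (C.map ψ)) *ᵥ w = s • w := by
          rw [← mulVec_mulVec, ← hu, hst, mulVec_smul]
        have h10 := scalar_of hcr h8 h9
        have h11 : (C * C).map ψ = s • (1 : Matrix (Fin 2) (Fin 2) (AlgebraicClosure F)) := by
          rw [Matrix.map_mul]
          exact h10
        apply sC ((C * C) 0 0)
        have e00 := congrFun (congrFun h11 0) 0
        have e11 := congrFun (congrFun h11 1) 1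
        have e01 := congrFun (congrFun h11 0) 1
        have e10 := congrFun (congrFun h11 1) 0
        simp only [Matrix.map_apply, Matrix.smul_apply, Matrix.one_apply_eq, smul_eq_mul, mul_one]
          at e00 e11
        simp only [Matrix.map_apply, Matrix.smul_apply, smul_eq_mul,
          Matrix.one_apply_ne (show (0 : Fin 2) ≠ 1 by decide), mul_zero] at e01
        simp only [Matrix.map_apply, Matrix.smul_apply, smul_eq_mul,
          Matrix.one_apply_ne (show (1 : Fin 2) ≠ 0 by decide), mul_zero] at e10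
        have f01 : (C * C) 0 1 = 0 := (map_eq_zero ψ).1 e01
        have f10 : (C * C) 1 0 = 0 := (map_eq_zero ψ).1 e10
        have f : (C * C) 0 0 = (C * C) 1 1 := hinj (e00.trans e11.symm)
        ext i j
        fin_cases i <;> fin_cases j
        · simp
        · simp only [Fin.zero_eta, Fin.mk_one, Fin.isValue, Matrix.smul_apply, smul_eq_mul,
            Matrix.one_apply_ne (show (0 : Fin 2) ≠ 1 by decide), mul_zero]
          exact f01
        · simp only [Fin.zero_eta, Fin.mk_one, Fin.isValue, Matrix.smul_apply, smul_eq_mul,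
            Matrix.one_apply_ne (show (1 : Fin 2) ≠ 0 by decide), mul_zero]
          exact f10
        · simp only [Fin.mk_one, Fin.isValue, Matrix.smul_apply, smul_eq_mul,
            Matrix.one_apply_eq, mul_one]
          exact f.symm
  exact ⟨v, hv, key A hA nA sA, key B hB nB sB⟩

end Pool.Agent.H40.SCG
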