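import Pool.Agent.H24.SCG.Base

/-!
# Project SCG, module ZAX: subgroups of `PGL(2,F)` acting on the projective line
-/

set_option autoImplicit false

namespace Pool.Agent.H40.SCG

open Matrix OnePoint

namespace ZAX

variable {L : Type} [Field L] [DecidableEq L]

omit [Field L] [DecidableEq L] in
theorem ais (c : Equiv.Perm (OnePoint L)) (y : OnePoint L) : c (c⁻¹ y) = y := by simp

omit [Field L] [DecidableEq L] in
theorem ias (c : Equiv.Perm (OnePoint L)) (y : OnePoint L) : c⁻¹ (c y) = y := by simp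

/-- The permutation is a Moebius transformation. -/
def IsM (s : Equiv.Perm (OnePoint L)) : Prop := ∃ g : GL (Fin 2) L, ∀ y, s y = g • y

theorem IsM.mul {s t : Equiv.Perm (OnePoint L)} (hs : IsM s) (ht : IsM t) : IsM (s * t) := by
  obtain ⟨g, hg⟩ := hs
  obtain ⟨h, hh⟩ := ht
  exact ⟨g * h, fun y => by rw [Equiv.Perm.mul_apply, hh, hg, mul_smul]⟩

theorem IsM.inv {s : Equiv.Perm (OnePoint L)} (hs : IsM s) : IsM s⁻¹ := by
  obtain ⟨g, hg⟩ := hs
  refine ⟨g⁻¹, fun y => ?_⟩
  rw [Equiv.Perm.inv_eq_iff_eq, hg, smul_inv_smul]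

/-- The permutation `s` fixes exactly `x`. -/
def PP (s : Equiv.Perm (OnePoint L)) (x : OnePoint L) : Prop := ∀ y, s y = y ↔ y = x

theorem exists_move (x : OnePoint L) : ∃ c : Equiv.Perm (OnePoint L), IsM c ∧ c x = ∞ := by
  cases x with
  | infty => exact ⟨1, ⟨1, fun y => by simp⟩, rfl⟩
  | coe k =>
    have hdet : (!![0, 1; 1, -k] : Matrix (Fin 2) (Fin 2) L).det ≠ 0 := by
      rw [det_fin_two]
      simp
    let g : GL (Fin 2) L := GeneralLinearGroup.mkOfDetNeZero !![0, 1; 1, -k] hdet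
    refine ⟨MulAction.toPerm g, ⟨g, fun y => rfl⟩, ?_⟩
    rw [MulAction.toPerm_apply, smul_some_eq_ite, if_pos]
    show (!![0, 1; 1, -k] : Matrix (Fin 2) (Fin 2) L) 1 0 * k +
      (!![0, 1; 1, -k] : Matrix (Fin 2) (Fin 2) L) 1 1 = 0
    simp

theorem PP.conj {s c : Equiv.Perm (OnePoint L)} {x : OnePoint L} (h : PP s x) :
    PP (c * s * c⁻¹) (c x) := by
  intro y
  have h1 := h (c⁻¹ y)
  rw [Equiv.Perm.mul_apply, Equiv.Perm.mul_apply]
  constructor
  · intro h2
    have h3 : s (c⁻¹ y) = c⁻¹ y := by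
      rw [Equiv.Perm.eq_inv_iff_eq]
      exact h2
    rw [← h1.1 h3, ais]
  · intro h2
    have h3 : c⁻¹ y = x := by rw [h2, ias]
    rw [h1.2 h3, ais]

theorem PP.of_conj {s c : Equiv.Perm (OnePoint L)} {x : OnePoint L}
    (h : PP (c * s * c⁻¹) (c x)) : PP s x := by
  have h1 := h.conj (c := c⁻¹)
  have h2 : c⁻¹ * (c * s * c⁻¹) * c⁻¹⁻¹ = s := by group
  rw [h2, ias] at h1
  exact h1

/-- The stabiliser of infinity acts by affine maps. -/
theorem aff {s : Equiv.Perm (OnePoint L)} (hs : IsM s) (h : s ∞ = ∞) :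
    ∃ a b : L, a ≠ 0 ∧ ∀ k : L, s (k : OnePoint L) = ((a * k + b : L) : OnePoint L) := by
  obtain ⟨g, hg⟩ := hs
  rw [hg, smul_infty_eq_self_iff] at h
  have hdet := g.det_ne_zero
  rw [det_fin_two, h, mul_zero, sub_zero] at hdet
  have h0 : g 0 0 ≠ 0 := left_ne_zero_of_mul hdet
  have h1 : g 1 1 ≠ 0 := right_ne_zero_of_mul hdet
  refine ⟨g 0 0 / g 1 1, g 0 1 / g 1 1, div_ne_zero h0 h1, fun k => ?_⟩
  rw [hg, smul_some_eq_ite, h, zero_mul, zero_add, if_neg h1]
  congr 1
  field_simp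

omit [Field L] [DecidableEq L] in
theorem eq_one_of {s : Equiv.Perm (OnePoint L)} (h : s ∞ = ∞)
    (h' : ∀ k : L, s (k : OnePoint L) = (k : OnePoint L)) : s = 1 := by
  ext y : 1
  cases y with
  | infty => exact h
  | coe k => exact h' k

omit [Field L] [DecidableEq L] in
theorem ext_of {s t : Equiv.Perm (OnePoint L)} (h : s ∞ = t ∞)
    (h' : ∀ k : L, s (k : OnePoint L) = t (k : OnePoint L)) : s = t := by
  ext y : 1
  cases y with
  | infty => exact h
  | coe k => exact h' k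

/-- translations fix exactly infinity -/
theorem pp_trans {s : Equiv.Perm (OnePoint L)} {b : L} (h : s ∞ = ∞)
    (h' : ∀ k : L, s (k : OnePoint L) = ((k + b : L) : OnePoint L)) : s = 1 ∨ PP s ∞ := by
  by_cases hb : b = 0
  · left
    apply eq_one_of h
    intro k
    rw [h', hb, add_zero]
  · right
    intro y
    cases y with
    | infty => exact ⟨fun _ => rfl, fun _ => h⟩
    | coe k =>
      rw [h']
      constructor
      · intro h1
        exfalso
        rw [OnePoint.coe_eq_coe] at h1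
        apply hb
        linear_combination h1
      · intro h1
        exact absurd h1 (OnePoint.coe_ne_infty k)

/-- permutations which fix exactly infinity are translations -/
theorem trans_of {s : Equiv.Perm (OnePoint L)} (hs : IsM s) (h : PP s ∞) :
    ∃ b : L, b ≠ 0 ∧ ∀ k : L, s (k : OnePoint L) = ((k + b : L) : OnePoint L) := by
  have h0 : s ∞ = ∞ := (h ∞).2 rfl
  obtain ⟨a, b, ha, hab⟩ := aff hs h0
  have h1 : a = 1 := by
    by_contra hne
    have h2 : 1 - a ≠ 0 := fun h3 => hne (by linear_combination -h3)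
    have h3 : s ((b / (1 - a) : L) : OnePoint L) = ((b / (1 - a) : L) : OnePoint L) := by
      rw [hab]
      congr 1
      field_simp
      ring
    exact OnePoint.coe_ne_infty _ ((h _).1 h3)
  subst h1
  refine ⟨b, ?_, fun k => by rw [hab, one_mul]⟩
  intro hb
  have h3 : s ((0 : L) : OnePoint L) = ((0 : L) : OnePoint L) := by
    rw [hab, hb]
    simp
  exact OnePoint.coe_ne_infty _ ((h _).1 h3)

theorem fix1 [IsAlgClosed L] {s : Equiv.Perm (OnePoint L)} (hs : IsM s) : ∃ x, s x = x := by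
  obtain ⟨g, hg⟩ := hs
  by_cases h : g 1 0 = 0
  · exact ⟨∞, by rw [hg, smul_infty_eq_self_iff]; exact h⟩
  · obtain ⟨c, hc⟩ : ∃ c : L, g 1 0 * c ^ 2 + (g 1 1 - g 0 0) * c - g 0 1 = 0 := by
      have hd : (Polynomial.C (g 1 0) * Polynomial.X ^ 2 + Polynomial.C (g 1 1 - g 0 0) *
          Polynomial.X + Polynomial.C (-g 0 1) : Polynomial L).degree = 2 :=
        Polynomial.degree_quadratic h
      obtain ⟨c, hc⟩ := IsAlgClosed.exists_root (Polynomial.C (g 1 0) * Polynomial.X ^ 2 +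
        Polynomial.C (g 1 1 - g 0 0) * Polynomial.X + Polynomial.C (-g 0 1) : Polynomial L)
        (by rw [hd]; norm_num)
      refine ⟨c, ?_⟩
      simp only [Polynomial.IsRoot.def, Polynomial.eval_add, Polynomial.eval_mul,
        Polynomial.eval_C, Polynomial.eval_pow, Polynomial.eval_X] at hc
      linear_combination hc
    refine ⟨(c : OnePoint L), ?_⟩
    rw [hg, smul_some_eq_ite]
    have hdet := g.det_ne_zero
    rw [det_fin_two] at hdet
    have hne : g 1 0 * c + g 1 1 ≠ 0 := by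
      intro h1
      apply hdet
      have h2 : g 0 0 * c + g 0 1 = 0 := by
        linear_combination c * h1 - hc
      have h3 : g 1 0 * (g 0 0 * g 1 1 - g 0 1 * g 1 0) = 0 := by
        linear_combination (g 1 0 * g 0 0) * h1 - (g 1 0 * g 1 0) * h2
      exact (mul_eq_zero.1 h3).resolve_left h
    rw [if_neg hne]
    congr 1
    rw [div_eq_iff hne]
    linear_combination -hc

theorem fix2 {s : Equiv.Perm (OnePoint L)} (hs : IsM s) (h1 : s ≠ 1) (x y z : OnePoint L)
    (hx : s x = x) (hy : s y = y) (hz : s z = z) : x = y ∨ y = z ∨ x = z := by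
  obtain ⟨c, hc, hcx⟩ := exists_move x
  by_contra hcon
  push Not at hcon
  obtain ⟨hxy, hyz, hxz⟩ := hcon
  have hs' := (hc.mul hs).mul hc.inv
  have fx : ∀ w, s w = w → (c * s * c⁻¹) (c w) = c w := by
    intro w hw
    rw [Equiv.Perm.mul_apply, Equiv.Perm.mul_apply, ias, hw]
  have h2 := fx x hx
  rw [hcx] at h2
  obtain ⟨a, b, ha, hab⟩ := aff hs' h2
  have hy' := fx y hy
  have hz' := fx z hz
  have ny : c y ≠ ∞ := by rw [← hcx]; exact fun h => hxy (c.injective h).symm
  have nz : c z ≠ ∞ := by rw [← hcx]; exact fun h => hxz (c.injective h).symm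
  have nyz : c y ≠ c z := fun h => hyz (c.injective h)
  obtain ⟨k, hk⟩ := OnePoint.ne_infty_iff_exists.1 ny
  obtain ⟨l, hl⟩ := OnePoint.ne_infty_iff_exists.1 nz
  rw [← hk, hab, OnePoint.coe_eq_coe] at hy'
  rw [← hl, hab, OnePoint.coe_eq_coe] at hz'
  rw [← hk, ← hl, Ne, OnePoint.coe_eq_coe] at nyz
  have ha1 : a = 1 := by
    have h3 : (a - 1) * (k - l) = 0 := by linear_combination hy' - hz'
    rcases mul_eq_zero.1 h3 with h4 | h4
    · linear_combination h4
    · exact absurd (sub_eq_zero.1 h4) nyz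
  have hb : b = 0 := by
    rw [ha1] at hy'
    linear_combination hy'
  have h5 : c * s * c⁻¹ = 1 := by
    apply eq_one_of h2
    intro t
    rw [hab, ha1, hb, one_mul, add_zero]
  apply h1
  have h6 : s = c⁻¹ * (c * s * c⁻¹) * c := by group
  rw [h6, h5]
  group

theorem uni_mul {s t : Equiv.Perm (OnePoint L)} (hs : IsM s) (ht : IsM t) {x : OnePoint L}
    (h1 : PP s x) (h2 : PP t x) : s * t = 1 ∨ PP (s * t) x := by
  obtain ⟨c, hc, hcx⟩ := exists_move x
  have h1' := h1.conj (c := c)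
  have h2' := h2.conj (c := c)
  rw [hcx] at h1' h2'
  obtain ⟨b, hb, hb'⟩ := trans_of ((hc.mul hs).mul hc.inv) h1'
  obtain ⟨d, hd, hd'⟩ := trans_of ((hc.mul ht).mul hc.inv) h2'
  have e : c * (s * t) * c⁻¹ = (c * s * c⁻¹) * (c * t * c⁻¹) := by group
  have h3 : (c * (s * t) * c⁻¹) ∞ = ∞ := by
    rw [e, Equiv.Perm.mul_apply, (h2' ∞).2 rfl, (h1' ∞).2 rfl]
  have h4 : ∀ k : L, (c * (s * t) * c⁻¹) (k : OnePoint L) = ((k + (d + b) : L) : OnePoint L) := by
    intro k
    rw [e, Equiv.Perm.mul_apply, hd', hb', add_assoc]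
  rcases pp_trans h3 h4 with h5 | h5
  · left
    have h6 : s * t = c⁻¹ * (c * (s * t) * c⁻¹) * c := by group
    rw [h6, h5]
    group
  · right
    apply PP.of_conj (c := c)
    rw [hcx]
    exact h5

theorem uni_abel {s t : Equiv.Perm (OnePoint L)} (hs : IsM s) (ht : IsM t) {x : OnePoint L}
    (h1 : PP s x) (h2 : PP t x) : s * t = t * s := by
  obtain ⟨c, hc, hcx⟩ := exists_move x
  have h1' := h1.conj (c := c)
  have h2' := h2.conj (c := c)
  rw [hcx] at h1' h2'
  obtain ⟨b, hb, hb'⟩ := trans_of ((hc.mul hs).mul hc.inv) h1'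
  obtain ⟨d, hd, hd'⟩ := trans_of ((hc.mul ht).mul hc.inv) h2'
  have h3 : (c * s * c⁻¹) * (c * t * c⁻¹) = (c * t * c⁻¹) * (c * s * c⁻¹) := by
    generalize c * s * c⁻¹ = s' at *
    generalize c * t * c⁻¹ = t' at *
    apply ext_of
    · rw [Equiv.Perm.mul_apply, Equiv.Perm.mul_apply, (h2' ∞).2 rfl, (h1' ∞).2 rfl,
        (h2' ∞).2 rfl]
    · intro k
      rw [Equiv.Perm.mul_apply, Equiv.Perm.mul_apply, hd', hb', hb', hd']
      congr 1
      ring
  have h4 : s * t = c⁻¹ * ((c * s * c⁻¹) * (c * t * c⁻¹)) * c := by group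
  rw [h4, h3]
  group

theorem uni_comm {u g : Equiv.Perm (OnePoint L)} (hu : IsM u) (hg : IsM g) {x : OnePoint L}
    (h1 : PP u x) (h2 : g x = x) (h3 : g * u = u * g) : g = 1 ∨ PP g x := by
  obtain ⟨c, hc, hcx⟩ := exists_move x
  have h1' := h1.conj (c := c)
  rw [hcx] at h1'
  have h2' : (c * g * c⁻¹) ∞ = ∞ := by
    rw [← hcx, Equiv.Perm.mul_apply, Equiv.Perm.mul_apply, ias, h2]
  obtain ⟨b, hb, hb'⟩ := trans_of ((hc.mul hu).mul hc.inv) h1'
  obtain ⟨a, d, ha, had⟩ := aff ((hc.mul hg).mul hc.inv) h2'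
  have h4 : (c * g * c⁻¹) * (c * u * c⁻¹) = (c * u * c⁻¹) * (c * g * c⁻¹) := by
    calc (c * g * c⁻¹) * (c * u * c⁻¹) = c * (g * u) * c⁻¹ := by group
      _ = c * (u * g) * c⁻¹ := by rw [h3]
      _ = _ := by group
  have h5 := congrArg (fun e : Equiv.Perm (OnePoint L) => e ((0 : L) : OnePoint L)) h4
  simp only [Equiv.Perm.mul_apply (f := c * g * c⁻¹), Equiv.Perm.mul_apply (f := c * u * c⁻¹)] at h5
  rw [hb', had, had, hb', OnePoint.coe_eq_coe] at h5
  have h6 : a = 1 := by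
    have h7 : (a - 1) * b = 0 := by linear_combination h5
    exact sub_eq_zero.1 ((mul_eq_zero.1 h7).resolve_right hb)
  rcases pp_trans h2' (fun k => by rw [had, h6, one_mul]) with h7 | h7
  · left
    have h8 : g = c⁻¹ * (c * g * c⁻¹) * c := by group
    rw [h8, h7]
    group
  · right
    apply PP.of_conj (c := c)
    rw [hcx]
    exact h7

theorem inv_form (h2 : (2 : L) ≠ 0) {g : Equiv.Perm (OnePoint L)} (hg : IsM g) (h1 : g ≠ 1)
    (hgg : g * g = 1) (h : g ∞ = ∞) :
    ∃ b : L, ∀ k : L, g (k : OnePoint L) = ((-k + b : L) : OnePoint L) := by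
  obtain ⟨a, b, ha, hab⟩ := aff hg h
  have h3 : ∀ k : L, a * (a * k + b) + b = k := by
    intro k
    have h4 := congrArg (fun e : Equiv.Perm (OnePoint L) => e (k : OnePoint L)) hgg
    simp only [Equiv.Perm.mul_apply, Equiv.Perm.one_apply] at h4
    rw [hab, hab, OnePoint.coe_eq_coe] at h4
    exact h4
  have h4 := h3 0
  have h5 := h3 1
  have h6 : (a - 1) * (a + 1) = 0 := by linear_combination h5 - h4
  rcases mul_eq_zero.1 h6 with h7 | h7
  · exfalso
    have ha1 : a = 1 := by linear_combination h7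
    rw [ha1] at h4
    have hb : b = 0 := by
      have : 2 * b = 0 := by linear_combination h4
      exact (mul_eq_zero.1 this).resolve_left h2
    apply h1
    apply eq_one_of h
    intro k
    rw [hab, ha1, hb, one_mul, add_zero]
  · refine ⟨b, fun k => ?_⟩
    rw [hab]
    congr 1
    linear_combination k * h7

theorem invol (h2 : (2 : L) ≠ 0) {g h : Equiv.Perm (OnePoint L)} (hg : IsM g) (hh : IsM h)
    (g1 : g ≠ 1) (h1 : h ≠ 1) (gg : g * g = 1) (hh' : h * h = 1) {x : OnePoint L}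
    (gx : g x = x) (hx : h x = x) : g = h ∨ PP (g * h) x := by
  obtain ⟨c, hc, hcx⟩ := exists_move x
  have mv : ∀ w : Equiv.Perm (OnePoint L), w x = x → (c * w * c⁻¹) ∞ = ∞ := by
    intro w hw
    rw [← hcx, Equiv.Perm.mul_apply, Equiv.Perm.mul_apply, ias, hw]
  have ne : ∀ w : Equiv.Perm (OnePoint L), w ≠ 1 → c * w * c⁻¹ ≠ 1 := by
    intro w hw h3
    apply hw
    have h8 : w = c⁻¹ * (c * w * c⁻¹) * c := by group
    rw [h8, h3]
    group
  have sq : ∀ w : Equiv.Perm (OnePoint L), w * w = 1 → (c * w * c⁻¹) * (c * w * c⁻¹) = 1 := by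
    intro w hw
    calc (c * w * c⁻¹) * (c * w * c⁻¹) = c * (w * w) * c⁻¹ := by group
      _ = 1 := by rw [hw]; group
  obtain ⟨b, hb⟩ := inv_form h2 ((hc.mul hg).mul hc.inv) (ne g g1) (sq g gg) (mv g gx)
  obtain ⟨d, hd⟩ := inv_form h2 ((hc.mul hh).mul hc.inv) (ne h h1) (sq h hh') (mv h hx)
  have e : c * (g * h) * c⁻¹ = (c * g * c⁻¹) * (c * h * c⁻¹) := by group
  have h3 : (c * (g * h) * c⁻¹) ∞ = ∞ := by
    rw [e, Equiv.Perm.mul_apply, mv h hx, mv g gx]
  have h4 : ∀ k : L, (c * (g * h) * c⁻¹) (k : OnePoint L) = ((k + (b - d) : L) : OnePoint L) := by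
    intro k
    rw [e, Equiv.Perm.mul_apply, hd, hb]
    congr 1
    ring
  rcases pp_trans h3 h4 with h5 | h5
  · left
    have h6 : g * h = 1 := by
      have h7 : g * h = c⁻¹ * (c * (g * h) * c⁻¹) * c := by group
      rw [h7, h5]
      group
    calc g = g * (h * h) := by rw [hh', mul_one]
      _ = (g * h) * h := by rw [mul_assoc]
      _ = h := by rw [h6, one_mul]
  · right
    apply PP.of_conj (c := c)
    rw [hcx]
    exact h5

theorem uni_pow {p : ℕ} [CharP L p] {u : Equiv.Perm (OnePoint L)} (hu : IsM u) {x : OnePoint L}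
    (h : PP u x) : u ^ p = 1 := by
  obtain ⟨c, hc, hcx⟩ := exists_move x
  have h' := h.conj (c := c)
  rw [hcx] at h'
  obtain ⟨b, hb, hb'⟩ := trans_of ((hc.mul hu).mul hc.inv) h'
  have h0 : (c * u * c⁻¹) ∞ = ∞ := (h' ∞).2 rfl
  have h1 : ∀ n : ℕ, ((c * u * c⁻¹) ^ n) ∞ = ∞ ∧
      ∀ k : L, ((c * u * c⁻¹) ^ n) (k : OnePoint L) = ((k + n * b : L) : OnePoint L) := by
    intro n
    induction n with
    | zero => exact ⟨rfl, fun k => by simp⟩
    | succ n ih =>
      constructor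
      · rw [pow_succ, Equiv.Perm.mul_apply, h0, ih.1]
      · intro k
        rw [pow_succ, Equiv.Perm.mul_apply, hb', ih.2]
        congr 1
        push_cast
        ring
  have h2 : (c * u * c⁻¹) ^ p = 1 := by
    apply eq_one_of (h1 p).1
    intro k
    rw [(h1 p).2, CharP.cast_eq_zero, zero_mul, add_zero]
  rw [conj_pow] at h2
  have h3 : u ^ p = c⁻¹ * (c * u ^ p * c⁻¹) * c := by group
  rw [h3, h2]
  group

end ZAX

open ZAX in
/-- ZAX -/
theorem zax_thm : Pool.SCG.ZAXStmt := by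
  classical
  intro F _ _ h2 X
  have hM : ∀ g : X.map (Pool.SCG.act F), IsM (g : Equiv.Perm (Pool.SCG.Om F)) := by
    rintro ⟨s, hs⟩
    obtain ⟨g, _, rfl⟩ := Subgroup.mem_map.1 hs
    exact ⟨Matrix.GeneralLinearGroup.map (algebraMap F (AlgebraicClosure F)) g, fun y => by
      simp only [Pool.SCG.act]
      congr⟩
  have h2' : (2 : AlgebraicClosure F) ≠ 0 := by
    intro h
    apply h2
    have h3 : algebraMap F (AlgebraicClosure F) 2 = 0 := by
      rw [map_ofNat]
      exact h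
    exact (map_eq_zero _).1 h3
  have hP : ∀ (g : X.map (Pool.SCG.act F)) (x : Pool.SCG.Om F),
      Pool.SCG.Par g x ↔ PP (g : Equiv.Perm (Pool.SCG.Om F)) x := fun g x => Iff.rfl
  refine ⟨?_, ?_, ?_, ?_, ?_, ?_, ?_⟩
  · intro g
    exact fix1 (hM g)
  · intro g hg x y z hx hy hz
    exact fix2 (hM g) (fun h => hg (Subtype.ext h)) x y z hx hy hz
  · intro x g h hg hh
    rcases ZAX.uni_mul (hM g) (hM h) ((hP g x).1 hg) ((hP h x).1 hh) with h3 | h3
    · exact Or.inl (Subtype.ext h3)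
    · exact Or.inr h3
  · intro x g h hg hh
    exact Subtype.ext (ZAX.uni_abel (hM g) (hM h) ((hP g x).1 hg) ((hP h x).1 hh))
  · intro x u g hu hg hgu
    rcases ZAX.uni_comm (hM u) (hM g) ((hP u x).1 hu) hg (congrArg Subtype.val hgu) with h3 | h3
    · exact Or.inl (Subtype.ext h3)
    · exact Or.inr h3
  · intro x g h g1 h1 gg hh gx hx
    rcases ZAX.invol h2' (hM g) (hM h) (fun h => g1 (Subtype.ext h)) (fun h => h1 (Subtype.ext h))
      (congrArg Subtype.val gg) (congrArg Subtype.val hh) gx hx with h3 | h3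
    · exact Or.inl (Subtype.ext h3)
    · exact Or.inr h3
  · intro x u _ hu
    obtain ⟨p, hp⟩ := CharP.exists F
    have hpr : p.Prime := CharP.char_is_prime F p
    have : CharP (AlgebraicClosure F) p := charP_of_injective_algebraMap
      (algebraMap F (AlgebraicClosure F)).injective p
    have h3 : u ^ p = 1 := by
      apply Subtype.ext
      exact ZAX.uni_pow (p := p) (hM u) ((hP u x).1 hu)
    have h4 : p ≠ 2 := by
      rintro rfl
      apply h2
      exact_mod_cast CharP.cast_eq_zero F 2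
    have h5 : Odd p := hpr.odd_of_ne_two h4
    exact Odd.of_dvd_nat h5 (orderOf_dvd_of_pow_eq_one h3)

end Pool.Agent.H40.SCG
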